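import Pool.Agent.Helper98.EY.StmtsB

/-!
# Module MOMM: moments of the window values for the modified left rates
-/

set_option autoImplicit false

namespace Pool.Agent.Helper98.EX

open Finset MeasureTheory ProbabilityTheory Filter
open scoped Topology ENNReal

/-- expectation of a product of functions of different sites -/
lemma momm_prod {Ω : Type} [MeasurableSpace Ω] {P : Measure Ω} {X : ℕ → Ω → ℝ} (h : IIDE P X)
    (S : Finset ℕ) (g : ℕ → ℝ → ℝ≥0∞) (hg : ∀ b, Measurable (g b)) :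
    ∫⁻ ω, ∏ b ∈ S, g b (X b ω) ∂P = ∏ b ∈ S, ∫⁻ ω, g b (X 0 ω) ∂P := by
  have h1 : iIndepFun (fun b ω => g b (X b ω)) P := h.indep.comp g hg
  rw [lintegral_prod_eq_prod_lintegral_of_indepFun S (fun b ω => g b (X b ω)) h1
    (fun b => (hg b).comp (h.meas b))]
  refine Finset.prod_congr rfl fun b _ => ?_
  exact ((h.ident b).comp (hg b)).lintegral_eq

/-- the function `1/t` -/
noncomputable def mommA (t : ℝ) : ℝ≥0∞ := ENNReal.ofReal (1 / t)

/-- the function `max (1-t) e / t` -/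
noncomputable def mommB (e t : ℝ) : ℝ≥0∞ := ENNReal.ofReal (max (1 - t) e / t)

lemma mommA_meas : Measurable mommA := by unfold mommA; fun_prop
lemma mommB_meas (e : ℝ) : Measurable (mommB e) := by unfold mommB; fun_prop

lemma momm_inv {Ω : Type} [MeasurableSpace Ω] {P : Measure Ω} {X : ℕ → Ω → ℝ} {θ : ℝ}
    (h : IIDE P X) (hθ0 : 0 < θ) (hθ1 : θ < 1) (hM : Mom P X 1 ≤ ENNReal.ofReal θ) :
    ∫⁻ ω, mommA (X 0 ω) ∂P ≤ ENNReal.ofReal 2 := by
  have := h.prob
  have hpt : ∀ ω, mommA (X 0 ω) = ENNReal.ofReal 1 +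
      ENNReal.ofReal (((1 - X 0 ω) / X 0 ω) ^ (1 : ℝ)) := by
    intro ω
    obtain ⟨h0, h1⟩ := h.rng 0 ω
    have hρ : 0 ≤ (1 - X 0 ω) / X 0 ω := div_nonneg (by linarith) h0.le
    rw [Real.rpow_one, ← ENNReal.ofReal_add zero_le_one hρ]
    unfold mommA
    congr 1
    field_simp
    ring
  simp only [hpt]
  rw [lintegral_add_left measurable_const, lintegral_const, measure_univ, mul_one]
  calc ENNReal.ofReal 1 + ∫⁻ ω, ENNReal.ofReal (((1 - X 0 ω) / X 0 ω) ^ (1 : ℝ)) ∂P
      ≤ ENNReal.ofReal 1 + ENNReal.ofReal θ := by gcongr; exact hM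
    _ = ENNReal.ofReal (1 + θ) := by rw [← ENNReal.ofReal_add zero_le_one hθ0.le]
    _ ≤ ENNReal.ofReal 2 := ENNReal.ofReal_le_ofReal (by linarith)

lemma momm_rho {Ω : Type} [MeasurableSpace Ω] {P : Measure Ω} {X : ℕ → Ω → ℝ} {θ θ' e : ℝ}
    (h : IIDE P X) (hθ0 : 0 < θ) (hθ1 : θ < 1) (hM : Mom P X 1 ≤ ENNReal.ofReal θ)
    (he : 0 ≤ e) (hθ' : θ + e * 2 ≤ θ') :
    ∫⁻ ω, mommB e (X 0 ω) ∂P ≤ ENNReal.ofReal θ' := by
  have := h.prob
  have hpt : ∀ ω, mommB e (X 0 ω) ≤ ENNReal.ofReal (((1 - X 0 ω) / X 0 ω) ^ (1 : ℝ)) +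
      ENNReal.ofReal e * mommA (X 0 ω) := by
    intro ω
    obtain ⟨h0, h1⟩ := h.rng 0 ω
    have hρ : 0 ≤ (1 - X 0 ω) / X 0 ω := div_nonneg (by linarith) h0.le
    have hi : 0 ≤ 1 / X 0 ω := by positivity
    unfold mommB mommA
    rw [Real.rpow_one, ← ENNReal.ofReal_mul he, ← ENNReal.ofReal_add hρ (by positivity)]
    apply ENNReal.ofReal_le_ofReal
    have e1 : (1 - X 0 ω) / X 0 ω + e * (1 / X 0 ω) = (1 - X 0 ω + e) / X 0 ω := by ring
    rw [e1]
    apply div_le_div_of_nonneg_right _ h0.le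
    exact max_le (by linarith) (by linarith)
  refine (lintegral_mono hpt).trans ?_
  have hmeas : Measurable (fun ω => ENNReal.ofReal (((1 - X 0 ω) / X 0 ω) ^ (1 : ℝ))) := by
    have := h.meas 0
    fun_prop
  have hmeas2 : Measurable (fun ω => mommA (X 0 ω)) := mommA_meas.comp (h.meas 0)
  rw [lintegral_add_left hmeas, lintegral_const_mul _ hmeas2]
  calc ∫⁻ ω, ENNReal.ofReal (((1 - X 0 ω) / X 0 ω) ^ (1 : ℝ)) ∂P +
        ENNReal.ofReal e * ∫⁻ ω, mommA (X 0 ω) ∂P
      ≤ ENNReal.ofReal θ + ENNReal.ofReal e * ENNReal.ofReal 2 := by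
        gcongr
        · exact hM
        · exact momm_inv h hθ0 hθ1 hM
    _ = ENNReal.ofReal (θ + e * 2) := by
        rw [← ENNReal.ofReal_mul he, ← ENNReal.ofReal_add hθ0.le (by positivity)]
    _ ≤ ENNReal.ofReal θ' := ENNReal.ofReal_le_ofReal hθ'

/-- the key bound -/
lemma momm_key {Ω : Type} [MeasurableSpace Ω] {P : Measure Ω} {X : ℕ → Ω → ℝ} {θ θ' e : ℝ}
    (h : IIDE P X) (hθ0 : 0 < θ) (hθ1 : θ < 1) (hM : Mom P X 1 ≤ ENNReal.ofReal θ)
    (he : 0 ≤ e) (hθ' : θ + e * 2 ≤ θ') (S T : Finset ℕ) (hST : Disjoint S T) :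
    ∫⁻ ω, ENNReal.ofReal ((∏ b ∈ S, 1 / X b ω) * ∏ b ∈ T, max (1 - X b ω) e / X b ω) ∂P ≤
      ENNReal.ofReal (2 ^ S.card * θ' ^ T.card) := by
  classical
  have hθ'0 : 0 ≤ θ' := by nlinarith
  have hexp : ∀ ω, ENNReal.ofReal ((∏ b ∈ S, 1 / X b ω) *
      ∏ b ∈ T, max (1 - X b ω) e / X b ω) =
      ∏ b ∈ S ∪ T, (if b ∈ S then mommA else mommB e) (X b ω) := by
    intro ω
    have hA : ∀ b, 0 ≤ 1 / X b ω := fun b => div_nonneg zero_le_one (h.rng b ω).1.le
    have hB : ∀ b, 0 ≤ max (1 - X b ω) e / X b ω := fun b =>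
      div_nonneg (he.trans (le_max_right _ _)) (h.rng b ω).1.le
    rw [Finset.prod_union hST, ENNReal.ofReal_mul (Finset.prod_nonneg fun b _ => hA b),
      ENNReal.ofReal_prod_of_nonneg (fun b _ => hA b),
      ENNReal.ofReal_prod_of_nonneg (fun b _ => hB b)]
    congr 1
    · refine Finset.prod_congr rfl fun b hb => ?_
      rw [if_pos hb]; rfl
    · refine Finset.prod_congr rfl fun b hb => ?_
      rw [if_neg (fun hb' => (Finset.disjoint_left.mp hST hb') hb)]; rfl
  simp only [hexp]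
  rw [momm_prod h (S ∪ T) (fun b => if b ∈ S then mommA else mommB e) (by
    intro b; split_ifs; exacts [mommA_meas, mommB_meas e]), Finset.prod_union hST]
  have e1 : ∏ b ∈ S, ∫⁻ ω, (if b ∈ S then mommA else mommB e) (X 0 ω) ∂P ≤
      ∏ _b ∈ S, ENNReal.ofReal 2 := by
    refine Finset.prod_le_prod' fun b hb => ?_
    rw [if_pos hb]
    exact momm_inv h hθ0 hθ1 hM
  have e2 : ∏ b ∈ T, ∫⁻ ω, (if b ∈ S then mommA else mommB e) (X 0 ω) ∂P ≤
      ∏ _b ∈ T, ENNReal.ofReal θ' := by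
    refine Finset.prod_le_prod' fun b hb => ?_
    rw [if_neg (fun hb' => (Finset.disjoint_left.mp hST hb') hb)]
    exact momm_rho h hθ0 hθ1 hM he hθ'
  refine (mul_le_mul' e1 e2).trans ?_
  rw [Finset.prod_const, Finset.prod_const, ← ENNReal.ofReal_pow (by norm_num),
    ← ENNReal.ofReal_pow hθ'0, ← ENNReal.ofReal_mul (by positivity)]

/-- formula for the particle value -/
lemma momm_vp (w l : ℕ → ℝ) (z d : ℕ) :
    vp (rE w) l z (z + d) = 1 / w z * ∏ b ∈ Finset.Ioc z (z + d), l b / w b := by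
  unfold vp
  induction d with
  | zero => simp [RR, rE]
  | succ d ih =>
    have h1 : Finset.Ioc z (z + (d + 1)) = insert (z + (d + 1)) (Finset.Ioc z (z + d)) := by
      ext b; simp only [Finset.mem_Ioc, Finset.mem_insert]; omega
    have h2 : (z + (d + 1)) ∉ Finset.Ioc z (z + d) := by simp
    have h3 : RR (rE w) l z (z + (d + 1)) =
        l (z + (d + 1)) / rE w (z + d + 1) * RR (rE w) l z (z + d) := by
      unfold RR
      rw [h1, Finset.prod_insert h2]
      rfl
    have h4 : rE w (z + (d + 1) + 1) = w (z + (d + 1)) := rfl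
    rw [h1, Finset.prod_insert h2, h3, h4]
    have e : l (z + (d + 1)) / rE w (z + d + 1) * RR (rE w) l z (z + d) / w (z + (d + 1)) =
        l (z + (d + 1)) / w (z + (d + 1)) * (RR (rE w) l z (z + d) / rE w (z + d + 1)) := by
      ring
    rw [e, ih]
    ring

lemma momm_RR_nonneg (w l : ℕ → ℝ) (hw : ∀ x, 0 < w x ∧ w x ≤ 1) (hl : ∀ x, 0 ≤ l x) (z x : ℕ) :
    0 ≤ RR (rE w) l z x := by
  unfold RR
  exact Finset.prod_nonneg fun b _ => div_nonneg (hl b) (hw _).1.le

/-- the resistance ratio is at most the particle value -/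
lemma momm_RR_le_vp (w l : ℕ → ℝ) (hw : ∀ x, 0 < w x ∧ w x ≤ 1) (hl : ∀ x, 0 ≤ l x) (z x : ℕ) :
    RR (rE w) l z x ≤ vp (rE w) l z x := by
  unfold vp
  have h4 : rE w (x + 1) = w x := rfl
  rw [h4, le_div_iff₀ (hw x).1]
  have := momm_RR_nonneg w l hw hl z x
  nlinarith [(hw x).2]

/-- the resistance ratio is at most the particle value of the shorter window -/
lemma momm_RR_le (w l : ℕ → ℝ) (hw : ∀ x, 0 < w x ∧ w x ≤ 1) (hl : ∀ x, 0 ≤ l x ∧ l x ≤ 1)
    {z x : ℕ} (hzx : z ≤ x) :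
    RR (rE w) l z x ≤ 1 / w z * ∏ b ∈ Finset.Ioc z (x - 1), l b / w b := by
  rcases hzx.eq_or_lt with rfl | hlt
  · have h1 : Finset.Ioc z (z - 1) = ∅ := Finset.Ioc_eq_empty (by omega)
    rw [h1, Finset.prod_empty, mul_one]
    simp only [RR, Finset.Ioc_self, Finset.prod_empty]
    rw [le_div_iff₀ (hw z).1]
    linarith [(hw z).2]
  · obtain ⟨d, rfl⟩ := Nat.exists_eq_add_of_le hlt
    have h0 : z + 1 + d - 1 = z + d := by omega
    rw [h0, ← momm_vp]
    have h1 : Finset.Ioc z (z + 1 + d) = insert (z + 1 + d) (Finset.Ioc z (z + d)) := by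
      ext b; simp only [Finset.mem_Ioc, Finset.mem_insert]; omega
    have h2 : (z + 1 + d) ∉ Finset.Ioc z (z + d) := by
      simp only [Finset.mem_Ioc]; omega
    have h3 : RR (rE w) l z (z + 1 + d) =
        l (z + 1 + d) / rE w (z + 1 + d) * RR (rE w) l z (z + d) := by
      unfold RR
      rw [h1, Finset.prod_insert h2]
    have h5 : rE w (z + 1 + d) = rE w (z + d + 1) := by
      have : z + 1 + d = z + d + 1 := by omega
      rw [this]
    have h4 : RR (rE w) l z (z + 1 + d) = l (z + 1 + d) * vp (rE w) l z (z + d) := by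
      rw [h3, h5]; unfold vp; ring
    rw [h4]
    have h6 : 0 ≤ vp (rE w) l z (z + d) :=
      (momm_RR_nonneg w l hw (fun x => (hl x).1) z (z + d)).trans
        (momm_RR_le_vp w l hw (fun x => (hl x).1) z (z + d))
    nlinarith [(hl (z + 1 + d)).2]

theorem st_MOMM : ST_MOMM := by
  intro Ω _ P X θ h hθ0 hθ1 hM
  have := h.prob
  set θ' : ℝ := (1 + θ) / 2 with hθ'
  have hθ'0 : 0 < θ' := by rw [hθ']; linarith
  have hθ'1 : θ' < 1 := by rw [hθ']; linarith
  obtain ⟨N1, hN1⟩ : ∃ N1 : ℕ, ∀ N : ℕ, N1 ≤ N → (N : ℝ) ^ (-100 : ℝ) ≤ (1 - θ) / 4 := by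
    have h1 : Tendsto (fun N : ℕ => (N : ℝ) ^ (-100 : ℝ)) atTop (𝓝 0) :=
      (tendsto_rpow_neg_atTop (by norm_num : (0 : ℝ) < 100)).comp tendsto_natCast_atTop_atTop
    have h2 : ∀ᶠ N : ℕ in atTop, (N : ℝ) ^ (-100 : ℝ) < (1 - θ) / 4 :=
      h1.eventually (gt_mem_nhds (by linarith))
    obtain ⟨N1, hN1⟩ := eventually_atTop.mp h2
    exact ⟨N1, fun N hN => (hN1 N hN).le⟩
  refine ⟨16 / θ', θ', N1, by positivity, by rw [hθ']; linarith, hθ'1, ?_⟩
  intro N hN
  set e : ℝ := (N : ℝ) ^ (-100 : ℝ) with he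
  have he0 : 0 ≤ e := by rw [he]; positivity
  have he1 : e ≤ (1 - θ) / 4 := hN1 N hN
  have heθ : θ + e * 2 ≤ θ' := by rw [hθ']; linarith
  have hK := fun (S T : Finset ℕ) (hST : Disjoint S T) =>
    momm_key h hθ0 hθ1 hM he0 heθ S T hST
  have hw : ∀ ω x, 0 < EE X ω x ∧ EE X ω x ≤ 1 := fun ω x => h.rng x ω
  have hl : ∀ ω x, 0 ≤ mE N (EE X ω) x ∧ mE N (EE X ω) x ≤ 1 := by
    intro ω x
    have h1 := h.rng x ω
    show 0 ≤ max (1 - X x ω) e ∧ max (1 - X x ω) e ≤ 1
    exact ⟨he0.trans (le_max_right _ _), max_le (by linarith) (by linarith)⟩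
  have hl0 : ∀ ω x, 0 ≤ mE N (EE X ω) x := fun ω x => (hl ω x).1
  have hC16 : (16 : ℝ) ≤ 16 / θ' := by rw [le_div_iff₀ hθ'0]; linarith
  -- constant bound
  have hcst : ∀ (F : Ω → ℝ) (S T : Finset ℕ), Disjoint S T → S.card ≤ 4 →
      (∀ ω, F ω ≤ (∏ b ∈ S, 1 / X b ω) * ∏ b ∈ T, max (1 - X b ω) e / X b ω) →
      ∫⁻ ω, ENNReal.ofReal (F ω) ∂P ≤ ENNReal.ofReal (16 / θ') := by
    intro F S T hST hS hF
    refine (lintegral_mono fun ω => ENNReal.ofReal_le_ofReal (hF ω)).trans ((hK S T hST).trans ?_)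
    apply ENNReal.ofReal_le_ofReal
    have h1 : (2 : ℝ) ^ S.card ≤ 2 ^ 4 := pow_le_pow_right₀ (by norm_num) hS
    have h2 : θ' ^ T.card ≤ 1 := pow_le_one₀ hθ'0.le hθ'1.le
    have h3 : 0 ≤ θ' ^ T.card := by positivity
    have h4 : (2 : ℝ) ^ S.card * θ' ^ T.card ≤ 2 ^ 4 * 1 := mul_le_mul h1 h2 h3 (by norm_num)
    linarith
  -- bound with the decay
  have hdec : ∀ (F : Ω → ℝ) (S T : Finset ℕ) (k : ℕ), Disjoint S T → S.card ≤ 2 →
      k ≤ T.card + 1 →
      (∀ ω, F ω ≤ (∏ b ∈ S, 1 / X b ω) * ∏ b ∈ T, max (1 - X b ω) e / X b ω) →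
      ∫⁻ ω, ENNReal.ofReal (F ω) ∂P ≤ ENNReal.ofReal (16 / θ' * θ' ^ k) := by
    intro F S T k hST hS hk hF
    refine (lintegral_mono fun ω => ENNReal.ofReal_le_ofReal (hF ω)).trans ((hK S T hST).trans ?_)
    apply ENNReal.ofReal_le_ofReal
    have h1 : (2 : ℝ) ^ S.card ≤ 2 ^ 2 := pow_le_pow_right₀ (by norm_num) hS
    have h2 : θ' ^ (T.card + 1) ≤ θ' ^ k := pow_le_pow_of_le_one hθ'0.le hθ'1.le hk
    have h3 : 0 ≤ θ' ^ T.card := by positivity
    have h4 : (2 : ℝ) ^ S.card * θ' ^ T.card ≤ 4 * θ' ^ T.card := by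
      apply mul_le_mul_of_nonneg_right _ h3; linarith
    rw [pow_succ] at h2
    have h5 : θ' ^ T.card ≤ θ' ^ k / θ' := by rw [le_div_iff₀ hθ'0]; exact h2
    have h6 : 0 ≤ θ' ^ k / θ' := by positivity
    have h7 : 16 / θ' * θ' ^ k = 16 * (θ' ^ k / θ') := by ring
    rw [h7]
    linarith
  have hA0 : ∀ ω b, 0 ≤ 1 / X b ω := fun ω b => div_nonneg zero_le_one (h.rng b ω).1.le
  have hB0 : ∀ ω (T : Finset ℕ), 0 ≤ ∏ b ∈ T, max (1 - X b ω) e / X b ω := fun ω T =>
    Finset.prod_nonneg fun b _ => div_nonneg (he0.trans (le_max_right _ _)) (h.rng b ω).1.le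
  have hRR0 : ∀ ω z x, 0 ≤ RR (rE (EE X ω)) (mE N (EE X ω)) z x := fun ω z x =>
    momm_RR_nonneg _ _ (hw ω) (hl0 ω) z x
  -- the basic estimates
  have hRR : ∀ ω (z x : ℕ), z ≤ x → RR (rE (EE X ω)) (mE N (EE X ω)) z x ≤
      1 / X z ω * ∏ b ∈ Finset.Ioc z (x - 1), max (1 - X b ω) e / X b ω := fun ω z x hzx =>
    momm_RR_le (EE X ω) (mE N (EE X ω)) (hw ω) (hl ω) hzx
  have hvp : ∀ ω (z x : ℕ), z ≤ x → vp (rE (EE X ω)) (mE N (EE X ω)) z x =
      1 / X z ω * ∏ b ∈ Finset.Ioc z x, max (1 - X b ω) e / X b ω := by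
    intro ω z x hzx
    obtain ⟨d, rfl⟩ := Nat.exists_eq_add_of_le hzx
    exact momm_vp (EE X ω) (mE N (EE X ω)) z d
  have hvh : ∀ ω (z x : ℕ), vh (rE (EE X ω)) (mE N (EE X ω)) z x =
      1 / X (z - 1) ω * RR (rE (EE X ω)) (mE N (EE X ω)) z x := by
    intro ω z x
    show RR (rE (EE X ω)) (mE N (EE X ω)) z x / X (z - 1) ω = _
    ring
  have hvh0 : ∀ ω z x, 0 ≤ vh (rE (EE X ω)) (mE N (EE X ω)) z x := fun ω z x => by
    rw [hvh]; exact mul_nonneg (hA0 ω _) (hRR0 ω z x)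
  have hvp0 : ∀ ω z x, z ≤ x → 0 ≤ vp (rE (EE X ω)) (mE N (EE X ω)) z x := fun ω z x hzx => by
    rw [hvp ω z x hzx]; exact mul_nonneg (hA0 ω _) (hB0 ω _)
  refine ⟨?_, ?_, ?_, ?_⟩
  · intro z x hzx
    refine ⟨?_, ?_, ?_⟩
    · refine hdec _ {z} (Finset.Ioc z (x - 1)) (x - z) ?_ ?_ ?_ ?_
      · simp
      · simp
      · rw [Nat.card_Ioc]; omega
      · intro ω
        rw [Finset.prod_singleton]
        exact hRR ω z x hzx
    · refine hdec _ {z} (Finset.Ioc z x) (x - z) ?_ ?_ ?_ ?_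
      · simp
      · simp
      · rw [Nat.card_Ioc]; omega
      · intro ω
        rw [Finset.prod_singleton]
        exact (hvp ω z x hzx).le
    · intro hz
      refine hdec _ {z - 1, z} (Finset.Ioc z (x - 1)) (x - z) ?_ ?_ ?_ ?_
      · rw [Finset.disjoint_left]
        intro b hb
        simp only [Finset.mem_insert, Finset.mem_singleton] at hb
        rw [Finset.mem_Ioc]; omega
      · exact Finset.card_le_two
      · rw [Nat.card_Ioc]; omega
      · intro ω
        rw [hvh, Finset.prod_pair (by omega), mul_assoc]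
        exact mul_le_mul_of_nonneg_left (hRR ω z x hzx) (hA0 ω _)
  · intro z y z' y' h1 h2 h3
    refine hcst _ {z, z'} (Finset.Ioc z y ∪ Finset.Ioc z' y') ?_ ?_ ?_
    · rw [Finset.disjoint_left]
      intro b hb
      simp only [Finset.mem_insert, Finset.mem_singleton] at hb
      simp only [Finset.mem_union, Finset.mem_Ioc]
      omega
    · exact Finset.card_le_two.trans (by norm_num)
    · intro ω
      have hd : Disjoint (Finset.Ioc z y) (Finset.Ioc z' y') := by
        rw [Finset.disjoint_left]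
        intro b hb
        simp only [Finset.mem_Ioc] at hb ⊢
        omega
      rw [Finset.prod_pair (by omega), Finset.prod_union hd, hvp ω z y h1, hvp ω z' y' h3]
      apply le_of_eq
      ring
  · intro z y z' y' h0 h1 h2 h3
    by_cases hc : z' - 1 = y
    · refine hcst _ {z - 1, z, z'} (Finset.Ioc z y ∪ Finset.Ioc z' (y' - 1)) ?_ ?_ ?_
      · rw [Finset.disjoint_left]
        intro b hb
        simp only [Finset.mem_insert, Finset.mem_singleton] at hb
        simp only [Finset.mem_union, Finset.mem_Ioc]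
        omega
      · exact Finset.card_le_three.trans (by norm_num)
      · intro ω
        have hd : Disjoint (Finset.Ioc z y) (Finset.Ioc z' (y' - 1)) := by
          rw [Finset.disjoint_left]
          intro b hb
          simp only [Finset.mem_Ioc] at hb ⊢
          omega
        have hn1 : z - 1 ∉ ({z, z'} : Finset ℕ) := by
          simp only [Finset.mem_insert, Finset.mem_singleton]; omega
        rw [Finset.prod_insert hn1, Finset.prod_pair (by omega), Finset.prod_union hd,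
          hvh, hvh, hc]
        have h5 : RR (rE (EE X ω)) (mE N (EE X ω)) z y * (1 / X y ω) =
            1 / X z ω * ∏ b ∈ Finset.Ioc z y, max (1 - X b ω) e / X b ω := by
          rw [← hvp ω z y h1]
          show _ = RR (rE (EE X ω)) (mE N (EE X ω)) z y / X y ω
          ring
        have h6 := hRR ω z' y' h3
        have h7 : 0 ≤ 1 / X (z - 1) ω * (1 / X z ω *
            ∏ b ∈ Finset.Ioc z y, max (1 - X b ω) e / X b ω) :=
          mul_nonneg (hA0 ω _) (mul_nonneg (hA0 ω _) (hB0 ω _))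
        calc 1 / X (z - 1) ω * RR (rE (EE X ω)) (mE N (EE X ω)) z y *
              (1 / X y ω * RR (rE (EE X ω)) (mE N (EE X ω)) z' y')
            = 1 / X (z - 1) ω * (RR (rE (EE X ω)) (mE N (EE X ω)) z y * (1 / X y ω)) *
              RR (rE (EE X ω)) (mE N (EE X ω)) z' y' := by ring
          _ = 1 / X (z - 1) ω * (1 / X z ω *
              ∏ b ∈ Finset.Ioc z y, max (1 - X b ω) e / X b ω) *
              RR (rE (EE X ω)) (mE N (EE X ω)) z' y' := by rw [h5]
          _ ≤ 1 / X (z - 1) ω * (1 / X z ω *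
              ∏ b ∈ Finset.Ioc z y, max (1 - X b ω) e / X b ω) *
              (1 / X z' ω * ∏ b ∈ Finset.Ioc z' (y' - 1), max (1 - X b ω) e / X b ω) :=
                mul_le_mul_of_nonneg_left h6 h7
          _ = _ := by ring
    · refine hcst _ {z - 1, z, z' - 1, z'} (Finset.Ioc z y ∪ Finset.Ioc z' (y' - 1)) ?_ ?_ ?_
      · rw [Finset.disjoint_left]
        intro b hb
        simp only [Finset.mem_insert, Finset.mem_singleton] at hb
        simp only [Finset.mem_union, Finset.mem_Ioc]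
        omega
      · exact Finset.card_le_four
      · intro ω
        have hd : Disjoint (Finset.Ioc z y) (Finset.Ioc z' (y' - 1)) := by
          rw [Finset.disjoint_left]
          intro b hb
          simp only [Finset.mem_Ioc] at hb ⊢
          omega
        have hn1 : z - 1 ∉ ({z, z' - 1, z'} : Finset ℕ) := by
          simp only [Finset.mem_insert, Finset.mem_singleton]; omega
        have hn2 : z ∉ ({z' - 1, z'} : Finset ℕ) := by
          simp only [Finset.mem_insert, Finset.mem_singleton]; omega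
        rw [Finset.prod_insert hn1, Finset.prod_insert hn2, Finset.prod_pair (by omega),
          Finset.prod_union hd, hvh, hvh]
        have h5 : RR (rE (EE X ω)) (mE N (EE X ω)) z y ≤
            1 / X z ω * ∏ b ∈ Finset.Ioc z y, max (1 - X b ω) e / X b ω := by
          rw [← hvp ω z y h1]
          exact momm_RR_le_vp _ _ (hw ω) (hl0 ω) z y
        have h6 := hRR ω z' y' h3
        have h7 : RR (rE (EE X ω)) (mE N (EE X ω)) z y *
            RR (rE (EE X ω)) (mE N (EE X ω)) z' y' ≤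
            (1 / X z ω * ∏ b ∈ Finset.Ioc z y, max (1 - X b ω) e / X b ω) *
            (1 / X z' ω * ∏ b ∈ Finset.Ioc z' (y' - 1), max (1 - X b ω) e / X b ω) :=
          mul_le_mul h5 h6 (hRR0 ω _ _) (mul_nonneg (hA0 ω _) (hB0 ω _))
        calc 1 / X (z - 1) ω * RR (rE (EE X ω)) (mE N (EE X ω)) z y *
              (1 / X (z' - 1) ω * RR (rE (EE X ω)) (mE N (EE X ω)) z' y')
            = (1 / X (z - 1) ω * (1 / X (z' - 1) ω)) * (RR (rE (EE X ω)) (mE N (EE X ω)) z y *
              RR (rE (EE X ω)) (mE N (EE X ω)) z' y') := by ring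
          _ ≤ (1 / X (z - 1) ω * (1 / X (z' - 1) ω)) *
              ((1 / X z ω * ∏ b ∈ Finset.Ioc z y, max (1 - X b ω) e / X b ω) *
              (1 / X z' ω * ∏ b ∈ Finset.Ioc z' (y' - 1), max (1 - X b ω) e / X b ω)) :=
                mul_le_mul_of_nonneg_left h7 (mul_nonneg (hA0 ω _) (hA0 ω _))
          _ = _ := by ring
  · intro a z y b h0 h1 h2 h3
    rcases h1.eq_or_lt with rfl | hlt
    · refine hcst _ {a - 1, y} (Finset.Ioc y b) ?_ ?_ ?_
      · rw [Finset.disjoint_left]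
        intro c hc
        simp only [Finset.mem_insert, Finset.mem_singleton] at hc
        rw [Finset.mem_Ioc]
        omega
      · exact Finset.card_le_two.trans (by norm_num)
      · intro ω
        rw [Finset.prod_pair (by omega), hvh, hvp ω y b h3]
        have h4 : RR (rE (EE X ω)) (mE N (EE X ω)) a a = 1 := by simp [RR]
        rw [h4]
        apply le_of_eq
        ring
    · refine hcst _ {a - 1, a, y} (Finset.Ioc a (z - 1) ∪ Finset.Ioc y b) ?_ ?_ ?_
      · rw [Finset.disjoint_left]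
        intro c hc
        simp only [Finset.mem_insert, Finset.mem_singleton] at hc
        simp only [Finset.mem_union, Finset.mem_Ioc]
        omega
      · exact Finset.card_le_three.trans (by norm_num)
      · intro ω
        have hd : Disjoint (Finset.Ioc a (z - 1)) (Finset.Ioc y b) := by
          rw [Finset.disjoint_left]
          intro c hc
          simp only [Finset.mem_Ioc] at hc ⊢
          omega
        have hn1 : a - 1 ∉ ({a, y} : Finset ℕ) := by
          simp only [Finset.mem_insert, Finset.mem_singleton]; omega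
        rw [Finset.prod_insert hn1, Finset.prod_pair (by omega), Finset.prod_union hd, hvh,
          hvp ω y b h3]
        have h6 := hRR ω a z h1
        have h7 : 0 ≤ 1 / X y ω * ∏ c ∈ Finset.Ioc y b, max (1 - X c ω) e / X c ω :=
          mul_nonneg (hA0 ω _) (hB0 ω _)
        calc 1 / X (a - 1) ω * RR (rE (EE X ω)) (mE N (EE X ω)) a z *
              (1 / X y ω * ∏ c ∈ Finset.Ioc y b, max (1 - X c ω) e / X c ω)
            ≤ 1 / X (a - 1) ω * (1 / X a ω *
              ∏ c ∈ Finset.Ioc a (z - 1), max (1 - X c ω) e / X c ω) *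
              (1 / X y ω * ∏ c ∈ Finset.Ioc y b, max (1 - X c ω) e / X c ω) :=
              mul_le_mul_of_nonneg_right (mul_le_mul_of_nonneg_left h6 (hA0 ω _)) h7
          _ = _ := by ring

end Pool.Agent.Helper98.EX
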