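import Pool.Agent.Helper98.EY.StmtsB

/-!
# Module EVSM: sums of the window values and values near a site
-/

set_option autoImplicit false

namespace Pool.Agent.Helper98.EX

open Finset MeasureTheory ProbabilityTheory Filter
open scoped Topology ENNReal

lemma evsm_measX {Ω : Type} [MeasurableSpace Ω] {P : Measure Ω} {X : ℕ → Ω → ℝ} (h : IIDE P X)
    (N z x : ℕ) : Measurable (fun ω => RR (rE (EE X ω)) (mE N (EE X ω)) z x) := by
  unfold RR
  refine Finset.measurable_fun_prod _ fun b _ => ?_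
  have h1 := h.meas b
  have h2 := h.meas (b - 1)
  show Measurable (fun ω => max (1 - X b ω) ((N : ℝ) ^ (-100 : ℝ)) / X (b - 1) ω)
  fun_prop

lemma evsm_measVp {Ω : Type} [MeasurableSpace Ω] {P : Measure Ω} {X : ℕ → Ω → ℝ} (h : IIDE P X)
    (N z x : ℕ) : Measurable (fun ω => vp (rE (EE X ω)) (mE N (EE X ω)) z x) := by
  unfold vp
  exact (evsm_measX h N z x).div (h.meas x)

lemma evsm_measVh {Ω : Type} [MeasurableSpace Ω] {P : Measure Ω} {X : ℕ → Ω → ℝ} (h : IIDE P X)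
    (N z x : ℕ) : Measurable (fun ω => vh (rE (EE X ω)) (mE N (EE X ω)) z x) := by
  unfold vh
  exact (evsm_measX h N z x).div (h.meas (z - 1))

/-- Markov inequality -/
lemma evsm_markov {Ω : Type} [MeasurableSpace Ω] {P : Measure Ω} {F : Ω → ℝ} (hF : Measurable F)
    {c v : ℝ} (hv : 0 < v) (hc : ∫⁻ ω, ENNReal.ofReal (F ω) ∂P ≤ ENNReal.ofReal c) :
    P {ω | v < F ω} ≤ ENNReal.ofReal (c / v) := by
  have hv' : ENNReal.ofReal v ≠ 0 := by
    rw [Ne, ENNReal.ofReal_eq_zero]; linarith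
  have h1 : P {ω | v < F ω} ≤ P {ω | ENNReal.ofReal v ≤ ENNReal.ofReal (F ω)} := by
    refine measure_mono fun ω hω => ?_
    exact ENNReal.ofReal_le_ofReal (le_of_lt hω)
  refine h1.trans ?_
  refine (meas_ge_le_lintegral_div (ENNReal.measurable_ofReal.comp hF).aemeasurable hv'
    ENNReal.ofReal_ne_top).trans ?_
  rw [ENNReal.ofReal_div_of_pos hv]
  exact ENNReal.div_le_div_right hc _

/-- Markov inequality with a union bound -/
lemma evsm_union {Ω : Type} [MeasurableSpace Ω] {P : Measure Ω} (S : Finset (ℕ × ℕ))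
    (F : ℕ → ℕ → Ω → ℝ) {c v : ℝ} (hv : 0 < v)
    (hF : ∀ q ∈ S, Measurable (F q.1 q.2) ∧
      ∫⁻ ω, ENNReal.ofReal (F q.1 q.2 ω) ∂P ≤ ENNReal.ofReal c) :
    P {ω | ∃ q ∈ S, v < F q.1 q.2 ω} ≤ ENNReal.ofReal (S.card * (c / v)) := by
  have h1 : {ω | ∃ q ∈ S, v < F q.1 q.2 ω} = ⋃ q ∈ S, {ω | v < F q.1 q.2 ω} := by
    ext ω; simp
  rw [h1]
  refine (measure_biUnion_finset_le S _).trans ?_
  have h2 : ∑ q ∈ S, P {ω | v < F q.1 q.2 ω} ≤ ∑ _q ∈ S, ENNReal.ofReal (c / v) :=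
    Finset.sum_le_sum fun q hq => evsm_markov (hF q hq).1 hv (hF q hq).2
  refine h2.trans ?_
  rw [Finset.sum_const, nsmul_eq_mul, ENNReal.ofReal_mul (by positivity), ENNReal.ofReal_natCast]

lemma evsm_asy (K δ ηp : ℝ) (m : ℕ) (hδ : 0 < δ) (hηp : 0 < ηp) :
    ∃ N0 : ℕ, ∀ N : ℕ, N0 ≤ N → K * Real.log N ^ m / (N : ℝ) ^ δ ≤ ηp ∧ 1 ≤ Real.log N ∧ 3 ≤ N := by
  have h1 : Tendsto (fun x : ℝ => K * (Real.log x ^ m / x ^ δ)) atTop (𝓝 (K * 0)) := by
    refine Tendsto.const_mul _ ?_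
    have h2 := isLittleO_log_rpow_rpow_atTop (m : ℝ) hδ
    have h3 := h2.tendsto_div_nhds_zero
    refine h3.congr' ?_
    filter_upwards [eventually_ge_atTop 1] with x _
    rw [Real.rpow_natCast]
  rw [mul_zero] at h1
  have h4 := (h1.comp tendsto_natCast_atTop_atTop).eventually (gt_mem_nhds hηp)
  have h5 : ∀ᶠ N : ℕ in atTop, (1 : ℝ) ≤ Real.log N :=
    (Real.tendsto_log_atTop.comp tendsto_natCast_atTop_atTop).eventually_ge_atTop 1
  obtain ⟨N0, hN0⟩ := eventually_atTop.mp (h4.and (h5.and (eventually_ge_atTop 3)))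
  refine ⟨N0, fun N hN => ?_⟩
  obtain ⟨a, b, c⟩ := hN0 N hN
  refine ⟨?_, b, c⟩
  have h6 : K * Real.log N ^ m / (N : ℝ) ^ δ = K * (Real.log N ^ m / (N : ℝ) ^ δ) := by ring
  rw [h6]
  exact le_of_lt a

/-- geometric sums -/
lemma evsm_geom (θ' : ℝ) (h0 : 0 < θ') (h1 : θ' < 1) (n : ℕ) :
    ∑ d ∈ Finset.range n, θ' ^ d ≤ 1 / (1 - θ') := by
  have h := geom_sum_eq h1.ne n
  rw [h]
  have e : (θ' ^ n - 1) / (θ' - 1) = (1 - θ' ^ n) / (1 - θ') := by
    rw [← neg_div_neg_eq]; ring_nf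
  rw [e]
  apply div_le_div_of_nonneg_right _ (by linarith)
  have : 0 < θ' ^ n := by positivity
  linarith

lemma evsm_RR_nonneg {Ω : Type} [MeasurableSpace Ω] {P : Measure Ω} {X : ℕ → Ω → ℝ}
    (h : IIDE P X) (N z x : ℕ) (ω : Ω) : 0 ≤ RR (rE (EE X ω)) (mE N (EE X ω)) z x := by
  unfold RR
  refine Finset.prod_nonneg fun b _ => div_nonneg ?_ (h.rng (b - 1) ω).1.le
  show 0 ≤ max (1 - X b ω) ((N : ℝ) ^ (-100 : ℝ))
  exact le_trans (by positivity) (le_max_right _ _)

lemma evsm_vp_nonneg {Ω : Type} [MeasurableSpace Ω] {P : Measure Ω} {X : ℕ → Ω → ℝ}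
    (h : IIDE P X) (N z x : ℕ) (ω : Ω) : 0 ≤ vp (rE (EE X ω)) (mE N (EE X ω)) z x :=
  div_nonneg (evsm_RR_nonneg h N z x ω) (h.rng x ω).1.le

lemma evsm_vh_nonneg {Ω : Type} [MeasurableSpace Ω] {P : Measure Ω} {X : ℕ → Ω → ℝ}
    (h : IIDE P X) (N z x : ℕ) (ω : Ω) : 0 ≤ vh (rE (EE X ω)) (mE N (EE X ω)) z x :=
  div_nonneg (evsm_RR_nonneg h N z x ω) (h.rng (z - 1) ω).1.le

/-- expectation of a double sum -/
lemma evsm_dsum {Ω : Type} [MeasurableSpace Ω] {P : Measure Ω} (I : Finset ℕ)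
    (J : ℕ → Finset ℕ) (F : ℕ → ℕ → Ω → ℝ) (c : ℕ → ℕ → ℝ)
    (hF : ∀ i ∈ I, ∀ j ∈ J i, Measurable (F i j) ∧ (∀ ω, 0 ≤ F i j ω) ∧ 0 ≤ c i j ∧
      ∫⁻ ω, ENNReal.ofReal (F i j ω) ∂P ≤ ENNReal.ofReal (c i j)) :
    ∫⁻ ω, ENNReal.ofReal (∑ i ∈ I, ∑ j ∈ J i, F i j ω) ∂P ≤
      ENNReal.ofReal (∑ i ∈ I, ∑ j ∈ J i, c i j) := by
  have e1 : ∀ ω, ENNReal.ofReal (∑ i ∈ I, ∑ j ∈ J i, F i j ω) =
      ∑ i ∈ I, ∑ j ∈ J i, ENNReal.ofReal (F i j ω) := by
    intro ω
    rw [ENNReal.ofReal_sum_of_nonneg fun i hi => Finset.sum_nonneg fun j hj =>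
      (hF i hi j hj).2.1 ω]
    refine Finset.sum_congr rfl fun i hi => ?_
    rw [ENNReal.ofReal_sum_of_nonneg fun j hj => (hF i hi j hj).2.1 ω]
  simp only [e1]
  have e2 : ∀ i ∈ I, ∀ j ∈ J i, Measurable (fun ω => ENNReal.ofReal (F i j ω)) :=
    fun i hi j hj => ENNReal.measurable_ofReal.comp (hF i hi j hj).1
  rw [lintegral_finsetSum' _ fun i hi =>
    (Finset.measurable_fun_sum _ fun j hj => e2 i hi j hj).aemeasurable]
  rw [ENNReal.ofReal_sum_of_nonneg fun i hi => Finset.sum_nonneg fun j hj =>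
    (hF i hi j hj).2.2.1]
  refine Finset.sum_le_sum fun i hi => ?_
  rw [lintegral_finsetSum' _ fun j hj => (e2 i hi j hj).aemeasurable]
  rw [ENNReal.ofReal_sum_of_nonneg fun j hj => (hF i hi j hj).2.2.1]
  exact Finset.sum_le_sum fun j hj => (hF i hi j hj).2.2.2

theorem st_EVSM (hMOMM : ST_MOMM) : ST_EVSM := by
  intro Ω _ P X θ h hθ0 hθ1 hM ηp hηp
  have := h.prob
  obtain ⟨C, θ', N1, hC, hθθ', hθ'1, hmm⟩ := hMOMM Ω P X θ h hθ0 hθ1 hM
  have hθ'0 : 0 < θ' := hθ0.trans hθθ'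
  have hpow1 : ∀ d : ℕ, θ' ^ d ≤ 1 := fun d => pow_le_one₀ hθ'0.le hθ'1.le
  have hCpow : ∀ d : ℕ, ENNReal.ofReal (C * θ' ^ d) ≤ ENNReal.ofReal C := by
    intro d
    apply ENNReal.ofReal_le_ofReal
    have := hpow1 d
    nlinarith
  refine ⟨?_, ?_, ?_⟩
  · -- sums
    set K : ℝ := C * (1 / (1 - θ')) with hK
    have hKpos : 0 < K := by
      have : 0 < 1 - θ' := by linarith
      positivity
    refine ⟨2 * K / ηp, max N1 1, by positivity, fun N hN => ?_⟩
    have hNN1 : N1 ≤ N := le_trans (le_max_left _ _) hN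
    have hN1 : 1 ≤ N := le_trans (le_max_right _ _) hN
    have hNpos : (0 : ℝ) < N := by exact_mod_cast hN1
    obtain ⟨hA, -, -, -⟩ := hmm N hNN1
    set r := fun ω => rE (EE X ω) with hr
    set l := fun ω => mE N (EE X ω) with hl
    -- expectations
    have hE1 : ∫⁻ ω, ENNReal.ofReal (∑ y ∈ Finset.range (N - 1), ∑ z ∈ Finset.range (y + 1),
        vp (r ω) (l ω) z y) ∂P ≤ ENNReal.ofReal (N * K) := by
      refine (evsm_dsum (P := P) (Finset.range (N - 1)) (fun y => Finset.range (y + 1))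
        (fun y z ω => vp (r ω) (l ω) z y) (fun y z => C * θ' ^ (y - z)) ?_).trans ?_
      · intro y _ z hz
        rw [Finset.mem_range] at hz
        exact ⟨evsm_measVp h N z y, fun ω => evsm_vp_nonneg h N z y ω, by positivity,
          (hA z y (by omega)).2.1⟩
      · apply ENNReal.ofReal_le_ofReal
        have h1 : ∀ y ∈ Finset.range (N - 1),
            ∑ z ∈ Finset.range (y + 1), C * θ' ^ (y - z) ≤ K := by
          intro y _
          rw [← Finset.mul_sum, hK]
          apply mul_le_mul_of_nonneg_left _ hC.le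
          have h2 := Finset.sum_range_reflect (fun d => θ' ^ d) (y + 1)
          simp only [Nat.add_sub_cancel] at h2
          rw [h2]
          exact evsm_geom θ' hθ'0 hθ'1 _
        refine (Finset.sum_le_sum h1).trans ?_
        rw [Finset.sum_const, Finset.card_range, nsmul_eq_mul]
        apply mul_le_mul_of_nonneg_right _ hKpos.le
        exact_mod_cast Nat.sub_le N 1
    have hE2 : ∫⁻ ω, ENNReal.ofReal (∑ z ∈ Finset.Ico 1 N, ∑ y ∈ Finset.Ico z N,
        vh (r ω) (l ω) z y) ∂P ≤ ENNReal.ofReal (N * K) := by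
      refine (evsm_dsum (P := P) (Finset.Ico 1 N) (fun z => Finset.Ico z N)
        (fun z y ω => vh (r ω) (l ω) z y) (fun z y => C * θ' ^ (y - z)) ?_).trans ?_
      · intro z hz y hy
        rw [Finset.mem_Ico] at hz hy
        exact ⟨evsm_measVh h N z y, fun ω => evsm_vh_nonneg h N z y ω, by positivity,
          (hA z y hy.1).2.2 hz.1⟩
      · apply ENNReal.ofReal_le_ofReal
        have h1 : ∀ z ∈ Finset.Ico 1 N,
            ∑ y ∈ Finset.Ico z N, C * θ' ^ (y - z) ≤ K := by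
          intro z _
          rw [← Finset.mul_sum, hK, Finset.sum_Ico_eq_sum_range]
          apply mul_le_mul_of_nonneg_left _ hC.le
          have h2 : ∀ k, z + k - z = k := fun k => by omega
          simp only [h2]
          exact evsm_geom θ' hθ'0 hθ'1 _
        refine (Finset.sum_le_sum h1).trans ?_
        rw [Finset.sum_const, Nat.card_Ico, nsmul_eq_mul]
        apply mul_le_mul_of_nonneg_right _ hKpos.le
        exact_mod_cast Nat.sub_le N 1
    have hm1 : Measurable (fun ω => ∑ y ∈ Finset.range (N - 1), ∑ z ∈ Finset.range (y + 1),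
        vp (r ω) (l ω) z y) :=
      Finset.measurable_fun_sum _ fun y _ => Finset.measurable_fun_sum _ fun z _ =>
        evsm_measVp h N z y
    have hm2 : Measurable (fun ω => ∑ z ∈ Finset.Ico 1 N, ∑ y ∈ Finset.Ico z N,
        vh (r ω) (l ω) z y) :=
      Finset.measurable_fun_sum _ fun z _ => Finset.measurable_fun_sum _ fun y _ =>
        evsm_measVh h N z y
    have hv : 0 < 2 * K / ηp * N := by positivity
    have hM1 := evsm_markov hm1 hv hE1
    have hM2 := evsm_markov hm2 hv hE2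
    have hval : (N : ℝ) * K / (2 * K / ηp * N) = ηp / 2 := by field_simp
    rw [hval] at hM1 hM2
    have hsub : {ω | ¬ (∑ y ∈ Finset.range (N - 1), ∑ z ∈ Finset.range (y + 1),
          vp (rE (EE X ω)) (mE N (EE X ω)) z y ≤ 2 * K / ηp * N ∧
        ∑ z ∈ Finset.Ico 1 N, ∑ y ∈ Finset.Ico z N,
          vh (rE (EE X ω)) (mE N (EE X ω)) z y ≤ 2 * K / ηp * N)} ⊆
        {ω | 2 * K / ηp * N < ∑ y ∈ Finset.range (N - 1), ∑ z ∈ Finset.range (y + 1),
          vp (r ω) (l ω) z y} ∪ {ω | 2 * K / ηp * N < ∑ z ∈ Finset.Ico 1 N, ∑ y ∈ Finset.Ico z N,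
          vh (r ω) (l ω) z y} := by
      intro ω hω
      rw [Set.mem_ofPred_eq, not_and_or, not_le, not_le] at hω
      exact hω
    refine (measure_mono hsub).trans ((measure_union_le _ _).trans ?_)
    calc _ ≤ ENNReal.ofReal (ηp / 2) + ENNReal.ofReal (ηp / 2) := add_le_add hM1 hM2
      _ = ENNReal.ofReal ηp := by
        rw [← ENNReal.ofReal_add (by positivity) (by positivity)]; congr 1; ring
  · -- values near a site
    obtain ⟨N2, hN2⟩ := evsm_asy (50 * C) (1 / 4) ηp 16 (by norm_num) hηp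
    refine ⟨max N1 N2, fun N p hN hp => ?_⟩
    have hNN1 : N1 ≤ N := le_trans (le_max_left _ _) hN
    obtain ⟨hasy, hlog, hN3⟩ := hN2 N (le_trans (le_max_right _ _) hN)
    obtain ⟨hA, -, -, -⟩ := hmm N hNN1
    have hNpos : (0 : ℝ) < N := by
      have : 0 < N := by omega
      exact_mod_cast this
    set v : ℝ := (N : ℝ) ^ (1 / 4 : ℝ) with hv
    have hvpos : 0 < v := by rw [hv]; positivity
    set R : ℝ := 2 * Real.log N ^ 8 with hR
    have hR0 : 0 ≤ R := by rw [hR]; positivity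
    set I := Finset.Icc (p - ⌊R⌋₊) (p + ⌊R⌋₊) with hI
    have hIcard : (I.card : ℝ) ≤ 2 * R + 1 := by
      rw [hI, Nat.card_Icc]
      have h1 : ((p + ⌊R⌋₊ + 1 - (p - ⌊R⌋₊) : ℕ) : ℝ) ≤ ((2 * ⌊R⌋₊ + 1 : ℕ) : ℝ) := by
        have : p + ⌊R⌋₊ + 1 - (p - ⌊R⌋₊) ≤ 2 * ⌊R⌋₊ + 1 := by omega
        exact_mod_cast this
      push_cast at h1
      have h2 := Nat.floor_le hR0
      linarith
    set S1 := (I ×ˢ I).filter (fun q => q.1 ≤ q.2) with hS1
    set S2 := (I ×ˢ I).filter (fun q => 1 ≤ q.1 ∧ q.1 ≤ q.2) with hS2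
    have hu1 := evsm_union (P := P) S1
      (fun z y ω => vp (rE (EE X ω)) (mE N (EE X ω)) z y) hvpos (by
        intro q hq
        rw [hS1, Finset.mem_filter] at hq
        exact ⟨evsm_measVp h N _ _, ((hA q.1 q.2 hq.2).2.1).trans (hCpow _)⟩)
    have hu2 := evsm_union (P := P) S2
      (fun z y ω => vh (rE (EE X ω)) (mE N (EE X ω)) z y) hvpos (by
        intro q hq
        rw [hS2, Finset.mem_filter] at hq
        exact ⟨evsm_measVh h N _ _, ((hA q.1 q.2 hq.2.2).2.2 hq.2.1).trans (hCpow _)⟩)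
    have hsub : {ω | ¬ Near N (rE (EE X ω)) (mE N (EE X ω)) p R v} ⊆
        {ω | ∃ q ∈ S1, v < vp (rE (EE X ω)) (mE N (EE X ω)) q.1 q.2} ∪
        {ω | ∃ q ∈ S2, v < vh (rE (EE X ω)) (mE N (EE X ω)) q.1 q.2} := by
      intro ω hω
      by_contra hcon
      apply hω
      rw [Set.mem_union, not_or] at hcon
      obtain ⟨hc1, hc2⟩ := hcon
      rw [Set.mem_ofPred_eq] at hc1 hc2
      push Not at hc1 hc2
      have hmem : ∀ z y : ℕ, z ≤ y → (p : ℝ) ≤ z + R → (y : ℝ) ≤ p + R → (z, y) ∈ I ×ˢ I := by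
        intro z y hzy h1 h2
        have h3 : p - z ≤ ⌊R⌋₊ := by
          rcases le_total p z with hpz | hpz
          · omega
          · apply Nat.le_floor
            rw [Nat.cast_sub hpz]; linarith
        have h4 : y - p ≤ ⌊R⌋₊ := by
          rcases le_total y p with hpz | hpz
          · omega
          · apply Nat.le_floor
            rw [Nat.cast_sub hpz]; linarith
        rw [Finset.mem_product, hI, Finset.mem_Icc, Finset.mem_Icc]
        refine ⟨⟨?_, ?_⟩, ⟨?_, ?_⟩⟩ <;> dsimp only <;> omega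
      constructor
      · intro z y hzy _ h1 h2
        exact hc1 (z, y) (by rw [hS1, Finset.mem_filter]; exact ⟨hmem z y hzy h1 h2, hzy⟩)
      · intro z y hz1 hzy _ h1 h2
        exact hc2 (z, y) (by rw [hS2, Finset.mem_filter]; exact ⟨hmem z y hzy h1 h2, hz1, hzy⟩)
    refine (measure_mono hsub).trans ((measure_union_le _ _).trans ?_)
    refine (add_le_add hu1 hu2).trans ?_
    rw [← ENNReal.ofReal_add (by positivity) (by positivity)]
    apply ENNReal.ofReal_le_ofReal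
    have hc : ∀ S : Finset (ℕ × ℕ), S ⊆ I ×ˢ I → (S.card : ℝ) ≤ 25 * Real.log N ^ 16 := by
      intro S hS
      have h1 : (S.card : ℝ) ≤ I.card * I.card := by
        have := Finset.card_le_card hS
        rw [Finset.card_product] at this
        exact_mod_cast this
      have hL8 : (1 : ℝ) ≤ Real.log N ^ 8 := one_le_pow₀ hlog
      have h2 : (I.card : ℝ) ≤ 5 * Real.log N ^ 8 := by rw [hR] at hIcard; linarith
      calc (S.card : ℝ) ≤ I.card * I.card := h1
        _ ≤ (5 * Real.log N ^ 8) * (5 * Real.log N ^ 8) :=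
            mul_le_mul h2 h2 (by positivity) (by positivity)
        _ = _ := by ring
    have h1 := hc S1 (Finset.filter_subset _ _)
    have h2 := hc S2 (Finset.filter_subset _ _)
    have h3 : 0 < C / v := by positivity
    calc (S1.card : ℝ) * (C / v) + S2.card * (C / v)
        = (S1.card + S2.card) * (C / v) := by ring
      _ ≤ (50 * Real.log N ^ 16) * (C / v) := by
          apply mul_le_mul_of_nonneg_right _ h3.le; linarith
      _ = 50 * C * Real.log N ^ 16 / v := by ring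
      _ ≤ ηp := hasy
  · -- centre
    obtain ⟨N2, hN2⟩ := evsm_asy (300 * C) (1 / 20) ηp 4 (by norm_num) hηp
    refine ⟨max N1 N2, fun N x0 w hN hx1 hx2 hw => ?_⟩
    have hNN1 : N1 ≤ N := le_trans (le_max_left _ _) hN
    obtain ⟨hasy, hlog, hN3⟩ := hN2 N (le_trans (le_max_right _ _) hN)
    obtain ⟨hA, -, -, -⟩ := hmm N hNN1
    have hNpos : (0 : ℝ) < N := by
      have : 0 < N := by omega
      exact_mod_cast this
    set v : ℝ := (N : ℝ) ^ (1 / 20 : ℝ) with hv
    have hvpos : 0 < v := by rw [hv]; positivity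
    set I := Finset.Ico (x0 - 6 * w) (x0 + 6 * w) with hI
    have hIcard : I.card = 12 * w := by
      rw [hI, Nat.card_Ico]; omega
    set S1 := (I ×ˢ I).filter (fun q => q.1 ≤ q.2) with hS1
    have hu1 := evsm_union (P := P) S1
      (fun z y ω => RR (rE (EE X ω)) (mE N (EE X ω)) z y) hvpos (by
        intro q hq
        rw [hS1, Finset.mem_filter] at hq
        exact ⟨evsm_measX h N _ _, ((hA q.1 q.2 hq.2).1).trans (hCpow _)⟩)
    set S2 := (I ×ˢ I).filter (fun q => q.1 ≤ q.2) with hS2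
    have hu2 := evsm_union (P := P) S2
      (fun z y ω => vp (rE (EE X ω)) (mE N (EE X ω)) z y) hvpos (by
        intro q hq
        rw [hS2, Finset.mem_filter] at hq
        exact ⟨evsm_measVp h N _ _, ((hA q.1 q.2 hq.2).2.1).trans (hCpow _)⟩)
    have hsub : {ω | ¬ Cen N (rE (EE X ω)) (mE N (EE X ω)) x0 w} ⊆
        {ω | ∃ q ∈ S1, v < RR (rE (EE X ω)) (mE N (EE X ω)) q.1 q.2} ∪
        {ω | ∃ q ∈ S2, v < vp (rE (EE X ω)) (mE N (EE X ω)) q.1 q.2} := by
      intro ω hω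
      by_contra hcon
      apply hω
      rw [Set.mem_union, not_or] at hcon
      obtain ⟨hc1, hc2⟩ := hcon
      rw [Set.mem_ofPred_eq] at hc1 hc2
      push Not at hc1 hc2
      constructor
      · intro z x h1 h2 h3
        refine hc1 (z, x) ?_
        rw [hS1, Finset.mem_filter, Finset.mem_product, hI, Finset.mem_Ico, Finset.mem_Ico]
        refine ⟨⟨⟨?_, ?_⟩, ⟨?_, ?_⟩⟩, ?_⟩ <;> dsimp only <;> omega
      · intro b h1 h2
        have h3 := hc2 (b - 1, b - 1) (by
          rw [hS2, Finset.mem_filter, Finset.mem_product, hI, Finset.mem_Ico]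
          refine ⟨⟨⟨?_, ?_⟩, ⟨?_, ?_⟩⟩, ?_⟩ <;> dsimp only <;> omega)
        have h4 : vp (rE (EE X ω)) (mE N (EE X ω)) (b - 1) (b - 1) = 1 / X (b - 1) ω := by
          simp [vp, RR, rE, EE]
        dsimp only at h3
        rw [h4] at h3
        have h5 := (h.rng (b - 1) ω).1
        rw [div_le_iff₀ h5] at h3
        show (N : ℝ) ^ (-(1 / 20) : ℝ) ≤ X (b - 1) ω
        rw [Real.rpow_neg hNpos.le, ← hv, inv_le_iff_one_le_mul₀ hvpos, mul_comm]
        linarith
    refine (measure_mono hsub).trans ((measure_union_le _ _).trans ?_)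
    refine (add_le_add hu1 hu2).trans ?_
    rw [← ENNReal.ofReal_add (by positivity) (by positivity)]
    apply ENNReal.ofReal_le_ofReal
    have hc : ∀ S : Finset (ℕ × ℕ), S ⊆ I ×ˢ I → (S.card : ℝ) ≤ 144 * Real.log N ^ 4 := by
      intro S hS
      have h1 : (S.card : ℝ) ≤ (12 * w) * (12 * w) := by
        have := Finset.card_le_card hS
        rw [Finset.card_product, hIcard] at this
        exact_mod_cast this
      have h2 : (12 * w : ℝ) ≤ 12 * Real.log N ^ 2 := by linarith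
      calc (S.card : ℝ) ≤ (12 * w) * (12 * w) := h1
        _ ≤ (12 * Real.log N ^ 2) * (12 * Real.log N ^ 2) :=
            mul_le_mul h2 h2 (by positivity) (by positivity)
        _ = _ := by ring
    have h1 := hc S1 (Finset.filter_subset _ _)
    have h2 := hc S2 (Finset.filter_subset _ _)
    have h3 : 0 < C / v := by positivity
    have h4 : 0 ≤ Real.log N ^ 4 := by positivity
    calc (S1.card : ℝ) * (C / v) + S2.card * (C / v)
        = (S1.card + S2.card) * (C / v) := by ring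
      _ ≤ (300 * Real.log N ^ 4) * (C / v) := by
          apply mul_le_mul_of_nonneg_right _ h3.le; linarith
      _ = 300 * C * Real.log N ^ 4 / v := by ring
      _ ≤ ηp := hasy

end Pool.Agent.Helper98.EX
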